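import Pool.Agent.H8.AV3.Stmts7

/-!
# TBL3: few discriminants are divisible by the square of a large prime
-/

set_option autoImplicit false

namespace Pool.Agent.H92.AV3C

open Polynomial Matrix Pool.AVR Pool.AV3

theorem ncard_natDegree_le (F : Type) [Field F] [Finite F] (n : ℕ) :
    {w : F[X] | w.natDegree ≤ n}.Finite ∧
      {w : F[X] | w.natDegree ≤ n}.ncard = Nat.card F ^ (n + 1) := by
  have e : {w : F[X] | w.natDegree ≤ n} = (Polynomial.degreeLT F (n + 1) : Set F[X]) := by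
    ext w
    simp only [Set.mem_ofPred_eq, SetLike.mem_coe, Polynomial.mem_degreeLT]
    constructor
    · intro h
      refine lt_of_le_of_lt (Polynomial.degree_le_of_natDegree_le h) ?_
      exact_mod_cast Nat.lt_succ_self n
    · intro h
      have h2 : w.degree ≤ (n : WithBot ℕ) := by
        by_contra h3
        have h4 : ((n : ℕ) : WithBot ℕ) < w.degree := not_le.mp h3
        have h5 : w ≠ 0 := by
          rintro rfl
          simp at h4
        rw [Polynomial.degree_eq_natDegree h5] at h4 h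
        have h6 : n < w.natDegree := by exact_mod_cast h4
        have h7 : w.natDegree < n + 1 := by exact_mod_cast h
        omega
      exact Polynomial.natDegree_le_of_degree_le h2
  have hfin : Finite (Polynomial.degreeLT F (n + 1)) :=
    Finite.of_equiv _ (Polynomial.degreeLTEquiv F (n + 1)).toEquiv.symm
  have hc : Nat.card (Polynomial.degreeLT F (n + 1)) = Nat.card F ^ (n + 1) := by
    rw [Nat.card_congr (Polynomial.degreeLTEquiv F (n + 1)).toEquiv, Nat.card_fun]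
    simp
  constructor
  · rw [e]
    exact Set.toFinite _
  · rw [e, ← hc]
    exact (Nat.card_coe_set_eq _).symm

theorem ncard_biUnion_le {ι A : Type} (s : Finset ι) (t : ι → Set A)
    (h : ∀ i ∈ s, (t i).Finite) :
    (⋃ i ∈ s, t i).Finite ∧ (⋃ i ∈ s, t i).ncard ≤ ∑ i ∈ s, (t i).ncard := by
  classical
  induction s using Finset.induction_on with
  | empty => simp
  | insert a s ha ih =>
    have ih' := ih (fun i hi => h i (Finset.mem_insert_of_mem hi))
    have e : (⋃ i ∈ insert a s, t i) = t a ∪ ⋃ i ∈ s, t i := by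
      simp
    rw [e, Finset.sum_insert ha]
    refine ⟨(h a (Finset.mem_insert_self _ _)).union ih'.1, ?_⟩
    refine le_trans (Set.ncard_union_le _ _) ?_
    exact Nat.add_le_add_left ih'.2 _

section
variable {F : Type} [Field F]

theorem mem_Vd_four {n α β : ℕ} {c : Fin 10 → F[X]} (hc : c ∈ Vd n (dv α β)) :
    (c 4).natDegree ≤ n := by
  by_cases h0 : c 4 = 0
  · rw [h0]; simp
  · have := hc 4 h0
    simp only [tr, Pool.AV3.dv, Fin.sum_univ_three] at this
    have h2 : ((c 4).natDegree : ℤ) ≤ n := by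
      refine le_trans this ?_
      simp
    exact_mod_cast h2

theorem update_mem_Vd {n α β : ℕ} {c : Fin 10 → F[X]} (hc : c ∈ Vd n (dv α β)) {w : F[X]}
    (hw : w.natDegree ≤ n) : Function.update c 4 w ∈ Vd n (dv α β) := by
  intro i hi
  by_cases h : i = 4
  · subst h
    simp only [Function.update_self] at hi ⊢
    have h2 : (w.natDegree : ℤ) ≤ n := by exact_mod_cast hw
    refine le_trans h2 ?_
    simp only [tr, Pool.AV3.dv, Fin.sum_univ_three]
    simp
  · rw [Function.update_of_ne h] at hi ⊢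
    exact hc i hi

theorem natDegree_le_of_mem {n α β : ℕ} {c : Fin 10 → F[X]} (hc : c ∈ Vd n (dv α β))
    (i : Fin 10) : (c i).natDegree ≤ n + α + 2 * β := by
  by_cases h0 : c i = 0
  · rw [h0]; simp
  · have h1 := hc i h0
    have h2 : ((c i).natDegree : ℤ) ≤ n + α + 2 * β := by
      refine le_trans h1 ?_
      simp only [Pool.AV3.dv, Fin.sum_univ_three]
      fin_cases i <;> simp [tr] <;> (try ring_nf) <;> (try omega)
    exact_mod_cast h2

theorem two_hf (h2 : (2 : F) ≠ 0) : 2 * hf F = 1 := by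
  unfold hf
  have e : (2 : F[X]) = C (2 : F) := (map_ofNat C 2).symm
  rw [e, ← C_mul, mul_inv_cancel₀ h2, C_1]

theorem two_of_dvd (hDWP : DWPStmt) (h2 : (2 : F) ≠ 0) {P : F[X]} (hP : Irreducible P)
    (c : Fin 10 → F[X]) (h : ∀ i, P ∣ (DW (hf F) c).coeff i) :
    ∃ i j : Fin 10, i ≠ j ∧ P ∣ c i ∧ P ∣ c j := by
  have hp : Prime P := hP.prime
  have ht := two_hf h2
  obtain ⟨-, h9, h8, -⟩ := hDWP.1 F[X] (hf F) ht c
  have a9 := h 9
  have a8 := h 8
  rw [h9] at a9
  rw [h8] at a8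
  have k4 : (16 : F[X]) * hf F ^ 4 = 1 := by
    have : (16 : F[X]) * hf F ^ 4 = (2 * hf F) ^ 4 := by ring
    rw [this, ht, one_pow]
  have b9 : P ∣ c 0 * c 6 * c 9 := by
    have e : c 0 * c 6 * c 9 = -16 * (-(hf F ^ 4 * (c 0 * c 6 * c 9))) := by
      calc c 0 * c 6 * c 9 = (16 * hf F ^ 4) * (c 0 * c 6 * c 9) := by rw [k4, one_mul]
        _ = _ := by ring
    rw [e]
    exact Dvd.dvd.mul_left a9 _
  have b8 : P ∣ c 0 * c 3 * c 7 * c 9 + c 0 * c 5 * c 6 * c 8 + c 1 * c 2 * c 6 * c 9 := by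
    have e : c 0 * c 3 * c 7 * c 9 + c 0 * c 5 * c 6 * c 8 + c 1 * c 2 * c 6 * c 9 =
        16 * (hf F ^ 4 *
          (c 0 * c 3 * c 7 * c 9 + c 0 * c 5 * c 6 * c 8 + c 1 * c 2 * c 6 * c 9)) := by
      calc _ = (16 * hf F ^ 4) *
            (c 0 * c 3 * c 7 * c 9 + c 0 * c 5 * c 6 * c 8 + c 1 * c 2 * c 6 * c 9) := by
              rw [k4, one_mul]
        _ = _ := by ring
    rw [e]
    exact Dvd.dvd.mul_left a8 _
  have four : ∀ a b d e : F[X], P ∣ a * b * d * e → P ∣ a ∨ P ∣ b ∨ P ∣ d ∨ P ∣ e := by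
    intro a b d e h
    rcases hp.dvd_or_dvd h with h | h
    · rcases hp.dvd_or_dvd h with h | h
      · rcases hp.dvd_or_dvd h with h | h
        · exact Or.inl h
        · exact Or.inr (Or.inl h)
      · exact Or.inr (Or.inr (Or.inl h))
    · exact Or.inr (Or.inr (Or.inr h))
  rcases hp.dvd_or_dvd b9 with h | h
  · rcases hp.dvd_or_dvd h with h | h
    · have q : P ∣ c 1 * c 2 * c 6 * c 9 := by
        have e : c 1 * c 2 * c 6 * c 9 =
            (c 0 * c 3 * c 7 * c 9 + c 0 * c 5 * c 6 * c 8 + c 1 * c 2 * c 6 * c 9) -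
              c 0 * (c 3 * c 7 * c 9 + c 5 * c 6 * c 8) := by ring
        rw [e]
        exact dvd_sub b8 (Dvd.dvd.mul_right h _)
      rcases four _ _ _ _ q with h' | h' | h' | h'
      · exact ⟨0, 1, by decide, h, h'⟩
      · exact ⟨0, 2, by decide, h, h'⟩
      · exact ⟨0, 6, by decide, h, h'⟩
      · exact ⟨0, 9, by decide, h, h'⟩
    · have q : P ∣ c 0 * c 3 * c 7 * c 9 := by
        have e : c 0 * c 3 * c 7 * c 9 =
            (c 0 * c 3 * c 7 * c 9 + c 0 * c 5 * c 6 * c 8 + c 1 * c 2 * c 6 * c 9) -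
              c 6 * (c 0 * c 5 * c 8 + c 1 * c 2 * c 9) := by ring
        rw [e]
        exact dvd_sub b8 (Dvd.dvd.mul_right h _)
      rcases four _ _ _ _ q with h' | h' | h' | h'
      · exact ⟨6, 0, by decide, h, h'⟩
      · exact ⟨6, 3, by decide, h, h'⟩
      · exact ⟨6, 7, by decide, h, h'⟩
      · exact ⟨6, 9, by decide, h, h'⟩
  · have q : P ∣ c 0 * c 5 * c 6 * c 8 := by
      have e : c 0 * c 5 * c 6 * c 8 =
          (c 0 * c 3 * c 7 * c 9 + c 0 * c 5 * c 6 * c 8 + c 1 * c 2 * c 6 * c 9) -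
            c 9 * (c 0 * c 3 * c 7 + c 1 * c 2 * c 6) := by ring
      rw [e]
      exact dvd_sub b8 (Dvd.dvd.mul_right h _)
    rcases four _ _ _ _ q with h' | h' | h' | h'
    · exact ⟨9, 0, by decide, h, h'⟩
    · exact ⟨9, 5, by decide, h, h'⟩
    · exact ⟨9, 6, by decide, h, h'⟩
    · exact ⟨9, 8, by decide, h, h'⟩

end

/-- TBL3. -/
theorem tbl3_thm (hDWP : DWPStmt) (hSQF : SQFStmt) (hTWO : TWOStmt) (hPLM : PLMStmt)
    (hCNV : CNVStmt) : TBL3Stmt := by
  classical
  intro F _ _ h2 α β C ε hε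
  obtain ⟨C', hC'⟩ : ∃ C' : ℕ, C' = C + 9 + 12 * (1 + α + 2 * β) := ⟨_, rfl⟩
  have hε3 : 0 < ε / 3 := by positivity
  obtain ⟨n1, H1⟩ := hSQF F h2 α β (ε / 3) hε3
  obtain ⟨n2, H2⟩ := hTWO F α β C (ε / 3) hε3
  obtain ⟨n3, H3⟩ := hPLM F h2 C' (ε / 3) hε3
  refine ⟨n1 + n2 + n3 + 2 * α + β, fun n hn => ?_⟩
  have hn1 : n1 ≤ n := by omega
  have hn2 : n2 ≤ n := by omega
  have hn3 : n3 ≤ n := by omega
  obtain ⟨hVfin, hVcard⟩ := hCNV F n α β (by omega) (by omega)
  have hV : (Vd n (dv α β) : Set (Fin 10 → F[X])).ncard ≤ Nat.card F ^ (10 * n + 10) := by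
    have e1 : 2 * α + β - (n + 1) = 0 := by omega
    have e2 : α + β - (n + 1) = 0 := by omega
    rw [e1, e2] at hVcard
    simpa using hVcard
  have G1 := H1 n hn1
  have G2 := H2 n hn2
  have G3 := H3 n hn3
  obtain ⟨T, hT⟩ : ∃ T : Set (Fin 10 → F[X]), T = {c | c ∈ Vd n (dv α β) ∧ c 4 = 0} :=
    ⟨_, rfl⟩
  have hTfin : T.Finite := by
    rw [hT]
    exact hVfin.subset (fun c hc => hc.1)
  obtain ⟨hWfin, hWcard⟩ := ncard_natDegree_le F n
  have hTV : T.ncard * Nat.card F ^ (n + 1) ≤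
      (Vd n (dv α β) : Set (Fin 10 → F[X])).ncard := by
    rw [← hWcard, ← Set.ncard_prod]
    refine Set.ncard_le_ncard_of_injOn
      (fun p : (Fin 10 → F[X]) × F[X] => Function.update p.1 4 p.2) ?_ ?_ hVfin
    · rintro ⟨c, w⟩ hp
      rw [Set.mem_prod] at hp
      obtain ⟨h, h'⟩ := hp
      rw [hT] at h
      exact update_mem_Vd h.1 h'
    · rintro ⟨c, w⟩ hp ⟨c', w'⟩ hp' he
      rw [Set.mem_prod] at hp hp'
      obtain ⟨h, -⟩ := hp
      obtain ⟨h', -⟩ := hp'
      rw [hT] at h h'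
      have hw : w = w' := by
        have := congrFun he 4
        simpa using this
      have hcc : c = c' := by
        funext i
        by_cases hi : i = 4
        · subst hi
          exact h.2.trans h'.2.symm
        · have := congrFun he i
          simpa [Function.update_of_ne hi] using this
      rw [hw, hcc]
  obtain ⟨W, hW⟩ : ∃ W : (Fin 10 → F[X]) → Set F[X], W = fun c =>
      if IsCoprime ((DW (hf F) c).map (algebraMap F[X] (RatFunc F)))
        (derivative ((DW (hf F) c).map (algebraMap F[X] (RatFunc F)))) then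
      {w : F[X] | w.natDegree ≤ n ∧ ∃ P : F[X], P.Monic ∧ Irreducible P ∧
        n ≤ 2 * P.natDegree + C' ∧ P ^ 2 ∣ (DW (hf F) c).eval w ∧
        ∃ i, ¬ P ∣ (DW (hf F) c).coeff i} else ∅ := ⟨_, rfl⟩
  have hdeg : ∀ c ∈ (Vd n (dv α β) : Set (Fin 10 → F[X])), (DW (hf F) c).natDegree ≤ C' ∧
      ∀ i, ((DW (hf F) c).coeff i).natDegree ≤ C' * (n + 1) := by
    intro c hc
    constructor
    · have := (hDWP.1 F[X] (hf F) (two_hf h2) c).1
      omega
    · intro i
      have h5 := hDWP.2 F c (n + α + 2 * β) (fun j => natDegree_le_of_mem hc j) i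
      refine le_trans h5 ?_
      rw [hC']
      nlinarith [Nat.zero_le (C * (n + 1)), Nat.zero_le (α * n), Nat.zero_le (β * n),
        Nat.zero_le n]
  have hWsub : ∀ c, W c ⊆ {w : F[X] | w.natDegree ≤ n} := by
    intro c w hw
    rw [hW] at hw
    simp only at hw
    split_ifs at hw with h
    · exact hw.1
    · exact absurd hw (Set.notMem_empty _)
  have hWc : ∀ c ∈ T, ((W c).ncard : ℝ) ≤ ε / 3 * (Nat.card F : ℝ) ^ (n + 1) := by
    intro c hc
    rw [hT] at hc
    rw [hW]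
    simp only
    split_ifs with h
    · exact G3 _ (hdeg c hc.1).1 (hdeg c hc.1).2 h
    · rw [Set.ncard_empty]
      push_cast
      positivity
  have hsub : {c : Fin 10 → F[X] | c ∈ Vd n (dv α β) ∧ ∃ P : F[X], P.Monic ∧
      Irreducible P ∧ n ≤ 2 * P.natDegree + C ∧ P ^ 2 ∣ dsc (Jc (hf F) c)} ⊆
      {c : Fin 10 → F[X] | c ∈ Vd n (dv α β) ∧
        ¬ IsCoprime ((DW (hf F) c).map (algebraMap F[X] (RatFunc F)))
          (derivative ((DW (hf F) c).map (algebraMap F[X] (RatFunc F))))} ∪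
      ({c : Fin 10 → F[X] | c ∈ Vd n (dv α β) ∧ ∃ P : F[X], P.Monic ∧
        Irreducible P ∧ n ≤ 2 * P.natDegree + C ∧ ∃ i j : Fin 10, i ≠ j ∧ P ∣ c i ∧
          P ∣ c j} ∪
      ⋃ c' ∈ hTfin.toFinset, (fun w => Function.update c' 4 w) '' W c') := by
    rintro c ⟨hc, P, hPm, hPi, hPd, hPc⟩
    by_cases hcop : IsCoprime ((DW (hf F) c).map (algebraMap F[X] (RatFunc F)))
        (derivative ((DW (hf F) c).map (algebraMap F[X] (RatFunc F))))
    swap
    · exact Or.inl ⟨hc, hcop⟩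
    refine Or.inr ?_
    by_cases hall : ∀ i, P ∣ (DW (hf F) c).coeff i
    · exact Or.inl ⟨hc, P, hPm, hPi, hPd, two_of_dvd hDWP h2 hPi c hall⟩
    refine Or.inr ?_
    push Not at hall
    obtain ⟨-, -, -, hev⟩ := hDWP.1 F[X] (hf F) (two_hf h2) c
    have hself : Function.update c 4 (c 4) = c := Function.update_eq_self 4 c
    have hD0 : DW (hf F) (Function.update c 4 0) = DW (hf F) c := (hev 0).2
    have hDc : (DW (hf F) c).eval (c 4) = dsc (Jc (hf F) c) := by
      rw [(hev (c 4)).1, hself]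
    simp only [Set.mem_iUnion]
    refine ⟨Function.update c 4 0, ?_, c 4, ?_, ?_⟩
    · rw [Set.Finite.mem_toFinset, hT]
      refine ⟨update_mem_Vd hc (by simp), ?_⟩
      simp
    · rw [hW]
      simp only
      rw [hD0, if_pos hcop]
      refine ⟨mem_Vd_four hc, P, hPm, hPi, by omega, ?_, hall⟩
      rw [hDc]
      exact hPc
    · simp only
      rw [Function.update_idem, hself]
  have hUfin := ncard_biUnion_le hTfin.toFinset
    (fun c' => (fun w => Function.update c' 4 w) '' W c')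
    (fun c' _ => (hWfin.subset (hWsub c')).image _)
  have hfin : ({c : Fin 10 → F[X] | c ∈ Vd n (dv α β) ∧
        ¬ IsCoprime ((DW (hf F) c).map (algebraMap F[X] (RatFunc F)))
          (derivative ((DW (hf F) c).map (algebraMap F[X] (RatFunc F))))} ∪
      ({c : Fin 10 → F[X] | c ∈ Vd n (dv α β) ∧ ∃ P : F[X], P.Monic ∧
        Irreducible P ∧ n ≤ 2 * P.natDegree + C ∧ ∃ i j : Fin 10, i ≠ j ∧ P ∣ c i ∧
          P ∣ c j} ∪
      ⋃ c' ∈ hTfin.toFinset, (fun w => Function.update c' 4 w) '' W c')).Finite :=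
    (hVfin.subset (fun c hc => hc.1)).union ((hVfin.subset (fun c hc => hc.1)).union hUfin.1)
  have K1 := Set.ncard_le_ncard hsub hfin
  have K2 := Set.ncard_union_le {c : Fin 10 → F[X] | c ∈ Vd n (dv α β) ∧
        ¬ IsCoprime ((DW (hf F) c).map (algebraMap F[X] (RatFunc F)))
          (derivative ((DW (hf F) c).map (algebraMap F[X] (RatFunc F))))}
      ({c : Fin 10 → F[X] | c ∈ Vd n (dv α β) ∧ ∃ P : F[X], P.Monic ∧
        Irreducible P ∧ n ≤ 2 * P.natDegree + C ∧ ∃ i j : Fin 10, i ≠ j ∧ P ∣ c i ∧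
          P ∣ c j} ∪
      ⋃ c' ∈ hTfin.toFinset, (fun w => Function.update c' 4 w) '' W c')
  have K3 := Set.ncard_union_le {c : Fin 10 → F[X] | c ∈ Vd n (dv α β) ∧ ∃ P : F[X], P.Monic ∧
        Irreducible P ∧ n ≤ 2 * P.natDegree + C ∧ ∃ i j : Fin 10, i ≠ j ∧ P ∣ c i ∧
          P ∣ c j}
      (⋃ c' ∈ hTfin.toFinset, (fun w => Function.update c' 4 w) '' W c')
  have K4 : ((⋃ c' ∈ hTfin.toFinset, (fun w => Function.update c' 4 w) '' W c').ncard : ℝ) ≤
      ε / 3 * (Nat.card F : ℝ) ^ (10 * n + 10) := by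
    have L1 : ((⋃ c' ∈ hTfin.toFinset, (fun w => Function.update c' 4 w) '' W c').ncard : ℝ) ≤
        ∑ c' ∈ hTfin.toFinset, (((fun w => Function.update c' 4 w) '' W c').ncard : ℝ) := by
      exact_mod_cast hUfin.2
    have L2 : ∀ c' ∈ hTfin.toFinset,
        (((fun w => Function.update c' 4 w) '' W c').ncard : ℝ) ≤
          ε / 3 * (Nat.card F : ℝ) ^ (n + 1) := by
      intro c' hc'
      rw [Set.Finite.mem_toFinset] at hc'
      refine le_trans ?_ (hWc c' hc')
      exact_mod_cast Set.ncard_image_le (hWfin.subset (hWsub c'))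
    have L3 := Finset.sum_le_sum L2
    rw [Finset.sum_const, nsmul_eq_mul, ← Set.ncard_eq_toFinset_card T hTfin] at L3
    have L4 : (T.ncard : ℝ) * (Nat.card F : ℝ) ^ (n + 1) ≤
        (Nat.card F : ℝ) ^ (10 * n + 10) := by
      exact_mod_cast le_trans hTV hV
    calc _ ≤ _ := L1
      _ ≤ _ := L3
      _ = ε / 3 * ((T.ncard : ℝ) * (Nat.card F : ℝ) ^ (n + 1)) := by ring
      _ ≤ _ := mul_le_mul_of_nonneg_left L4 hε3.le
  have K1' := (Nat.cast_le (α := ℝ)).mpr K1
  have K2' := (Nat.cast_le (α := ℝ)).mpr K2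
  have K3' := (Nat.cast_le (α := ℝ)).mpr K3
  push_cast at K2' K3'
  linarith

end Pool.Agent.H92.AV3C
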