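import Pool.Agent.H8.AV3.Stmts7

/-!
# WLS: the lower counting inequality for one curve
-/

set_option autoImplicit false

namespace Pool.Agent.H92.AV3C

open Polynomial Matrix Pool.AVR Pool.AV3

open Classical in
theorem finsum_mem_eq_sum_ite {A : Type} (V : Finset A) (s : Set A) (hs : s ⊆ (V : Set A))
    (g : A → ℝ) : ∑ᶠ c ∈ s, g c = ∑ c ∈ V, if c ∈ s then g c else 0 := by
  rw [finsum_mem_def, finsum_eq_sum_of_support_subset (s := V)]
  · refine Finset.sum_congr rfl fun c _ => ?_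
    rw [Set.indicator_apply]
  · intro c hc
    by_contra h
    have h1 : c ∉ s := fun h' => h (hs h')
    rw [Function.mem_support, Set.indicator_of_notMem h1] at hc
    exact hc rfl

/-- WLS. -/
theorem wls_thm (hWL1 : WL1Stmt) (hLSP : LSPStmt) (hBXE : BXEStmt) (hSEC : SECStmt)
    (hCNV : CNVStmt) (hLVA : LVAStmt) : WLSStmt := by
  classical
  intro F _ _ h2 n N A S f hf hN hA hS hbig hfin
  obtain ⟨hEl, hSN, hXN, hsq⟩ := hf
  have hEll : f ∈ Ell F n := hEl.1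
  have hq : 1 < Nat.card F := Finite.one_lt_card
  have hXm : (X : F[X]).Monic := monic_X
  have hXi : Irreducible (X : F[X]) := irreducible_X
  have hkap : ∀ P : F[X], P.Monic → Irreducible P →
      (1 : ℝ) < (Nat.card (AdjoinRoot P) : ℝ) := by
    intro P hPm hPi
    have h1 := (hLVA F h2 P hPm hPi).1 1
    rw [pow_one, one_mul] at h1
    rw [h1]
    have h3 : 1 < Nat.card F ^ P.natDegree :=
      Nat.one_lt_pow (Nat.pos_iff_ne_zero.mp hPi.natDegree_pos) hq
    exact_mod_cast h3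
  have hBw : ∀ P : F[X], P.Monic → Irreducible P → ∀ g, 0 < Bw P N g := by
    intro P hPm hPi g
    have h1 := hkap P hPm hPi
    unfold Bw
    have h3 : 0 < (Nat.card (AdjoinRoot P) : ℝ) - 1 := by linarith
    positivity
  obtain ⟨B, hB⟩ : ∃ B : ℝ, B = (∏ P ∈ S, Bw P N f) * Bw X N (AVS.finf n f) := ⟨_, rfl⟩
  have hBpos : 0 < B := by
    rw [hB]
    exact mul_pos (Finset.prod_pos fun P hP => hBw P (hS P hP).1 (hS P hP).2 f)
      (hBw X hXm hXi _)
  obtain ⟨Wt, hWt⟩ : ∃ Wt : ℕ → ℕ → (Fin 10 → F[X]) → ℝ, Wt = fun α β c =>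
      (∏ P ∈ S, (gdk (md P c) : ℝ)) * gdk (md X (cinf n (Pool.AV3.dv α β) c)) := ⟨_, rfl⟩
  have key : ∀ α β : ℕ, α ≤ n → β ≤ n → ∀ c ∈ VJ n (Pool.AV3.dv α β) f,
      WB3 n α β S N c = Wt α β c / B := by
    intro α β hα hβ c hc
    obtain ⟨e1, e2⟩ := hBXE F h2 n α β N hα hβ f hEll c hc
    have e3 : ∀ P ∈ S, wb P N c = (gdk (md P c) : ℝ) / Bw P N f := by
      intro P hP
      unfold wb
      rw [e1 P]
      unfold Bx
      rw [if_neg (hSN P hP)]
    have e4 : wb X N (cinf n (Pool.AV3.dv α β) c) =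
        (gdk (md X (cinf n (Pool.AV3.dv α β) c)) : ℝ) / Bw X N (AVS.finf n f) := by
      unfold wb
      rw [e2]
      unfold Bx
      rw [if_neg hXN]
    unfold WB3
    rw [Finset.prod_congr rfl e3, e4, Finset.prod_div_distrib, div_mul_div_comm, hWt, hB]
  have hWB0 : ∀ α β : ℕ, ∀ c, 0 ≤ WB3 n α β S N c := by
    intro α β c
    unfold WB3
    exact mul_nonneg (Finset.prod_nonneg fun P hP =>
      ((hLVA F h2 P (hS P hP).1 (hS P hP).2).2 N hN c).2.2.1)
      ((hLVA F h2 X hXm hXi).2 N hN _).2.2.1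
  have hVfin : ∀ α β : ℕ, α ≤ n → β ≤ n →
      (VJ n (Pool.AV3.dv α β) f : Set (Fin 10 → F[X])).Finite := by
    intro α β hα hβ
    exact (hCNV F n α β hα hβ).1.subset fun c hc => hc.1
  have := Fintype.ofFinite (Sel3 f)
  have hdsc : dsc f ≠ 0 := hEll.2
  have hO : FO (AVS.kf f).1 (AVS.kf f).2.1 (AVS.kf f).2.2 ∈ SelSet f :=
    (hSEC F h2 f).2.2 0 hdsc
  obtain ⟨t0, ht0⟩ : ∃ t0 : Sel3 f, t0 = Quotient.mk (selSetoid f)
      ⟨FO (AVS.kf f).1 (AVS.kf f).2.1 (AVS.kf f).2.2, hO⟩ := ⟨_, rfl⟩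
  obtain ⟨rep, hrep⟩ : ∃ rep : Sel3 f → SelSet f,
      ∀ x : Sel3 f, (Quotient.mk (selSetoid f) (rep x) : Sel3 f) = x :=
    ⟨fun x => Quotient.out x, fun x => Quotient.out_eq x⟩
  have hcls : ∀ α β : ℕ, α ≤ n → β ≤ n → ∀ c ∈ VJ n (Pool.AV3.dv α β) f, ¬ Tri f c →
      WB3 n α β S N c ≠ 0 → ∃ x : Sel3 f, x ≠ t0 ∧ c ∈ ClS n α β f (rep x).1 := by
    intro α β hα hβ c hc hT hne
    rw [key α β hα hβ c hc] at hne
    have hne2 : Wt α β c ≠ 0 := fun h => hne (by rw [h, zero_div])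
    rw [hWt] at hne2
    obtain ⟨k1, k2⟩ := mul_ne_zero_iff.mp hne2
    rw [Finset.prod_ne_zero_iff] at k1
    have hmem : mp c ∈ SelSet f := hLSP F h2 n α β S f hEl hS
      (fun P hPm hPi hPS => ⟨hbig P hPm hPi hPS, hsq P hPm hPi hPS⟩) c hc
      (fun P hP => by exact_mod_cast k1 P hP) (by exact_mod_cast k2)
    refine ⟨Quotient.mk (selSetoid f) ⟨mp c, hmem⟩, ?_, hc, ?_⟩
    · intro h
      rw [ht0] at h
      exact hT (Quotient.exact h.symm)
    · exact Quotient.exact (hrep (Quotient.mk (selSetoid f) ⟨mp c, hmem⟩))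
  have step1 : ∀ α β : ℕ, α ≤ n → β ≤ n →
      ∑ᶠ c ∈ {c | c ∈ VJ n (Pool.AV3.dv α β) f ∧ ¬ Tri f c}, WB3 n α β S N c ≤
        ∑ x ∈ Finset.univ.erase t0, ∑ᶠ c ∈ ClS n α β f (rep x).1, WB3 n α β S N c := by
    intro α β hα hβ
    have h1 : {c | c ∈ VJ n (Pool.AV3.dv α β) f ∧ ¬ Tri f c} ⊆
        ((hVfin α β hα hβ).toFinset : Set (Fin 10 → F[X])) := by
      intro c hc
      rw [Set.Finite.coe_toFinset]
      exact hc.1
    have h3 : ∀ x : Sel3 f, ClS n α β f (rep x).1 ⊆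
        ((hVfin α β hα hβ).toFinset : Set (Fin 10 → F[X])) := by
      intro x c hc
      rw [Set.Finite.coe_toFinset]
      exact hc.1
    rw [finsum_mem_eq_sum_ite _ _ h1]
    rw [Finset.sum_congr rfl fun x _ => finsum_mem_eq_sum_ite _ _ (h3 x) _]
    rw [Finset.sum_comm]
    refine Finset.sum_le_sum fun c hc => ?_
    have hnn : ∀ x ∈ Finset.univ.erase t0,
        0 ≤ (if c ∈ ClS n α β f (rep x).1 then WB3 n α β S N c else 0) := by
      intro x _
      split_ifs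
      · exact hWB0 α β c
      · exact le_refl _
    by_cases hh : c ∈ {c | c ∈ VJ n (Pool.AV3.dv α β) f ∧ ¬ Tri f c}
    · rw [if_pos hh]
      by_cases h0 : WB3 n α β S N c = 0
      · rw [h0] at hnn ⊢
        exact Finset.sum_nonneg hnn
      · obtain ⟨x, hx, hcx⟩ := hcls α β hα hβ c hh.1 hh.2 h0
        have := Finset.single_le_sum hnn (Finset.mem_erase.mpr ⟨hx, Finset.mem_univ x⟩)
        rw [if_pos hcx] at this
        exact this
    · rw [if_neg hh]
      exact Finset.sum_nonneg hnn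
  have hCl0 : ∀ (α β : ℕ) (x : Sel3 f),
      0 ≤ (∑ᶠ c ∈ ClS n α β f (rep x).1, WB3 n α β S N c) /
        ((G3 (Pool.AV3.dv α β) : Set (Matrix (Fin 3) (Fin 3) F[X])).ncard : ℝ) := by
    intro α β x
    exact div_nonneg (finsum_nonneg fun c => finsum_nonneg fun _ => hWB0 α β c)
      (Nat.cast_nonneg _)
  have step2 : ∀ x : Sel3 f, ((Nat.card F : ℝ) - 1) *
      ∑ α ∈ Finset.range (A + 1), ∑ β ∈ Finset.range (A + 1),
        (∑ᶠ c ∈ ClS n α β f (rep x).1, WB3 n α β S N c) /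
          ((G3 (Pool.AV3.dv α β) : Set (Matrix (Fin 3) (Fin 3) F[X])).ncard : ℝ) ≤ 1 := by
    intro x
    have w1 := hWL1 F h2 n N S f ⟨hEl, hSN, hXN, hsq⟩ hN hS (rep x).1 (rep x).2
    rw [← hB] at w1
    have w2 : ∑ α ∈ Finset.range (n + 1), ∑ β ∈ Finset.range (n + 1),
        (∑ᶠ c ∈ ClS n α β f (rep x).1, WB3 n α β S N c) /
          ((G3 (Pool.AV3.dv α β) : Set (Matrix (Fin 3) (Fin 3) F[X])).ncard : ℝ) =
        (∑ α ∈ Finset.range (n + 1), ∑ β ∈ Finset.range (n + 1),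
          (∑ᶠ c ∈ ClS n α β f (rep x).1, (∏ P ∈ S, (gdk (md P c) : ℝ)) *
            gdk (md X (cinf n (Pool.AV3.dv α β) c))) /
          ((G3 (Pool.AV3.dv α β) : Set (Matrix (Fin 3) (Fin 3) F[X])).ncard : ℝ)) / B := by
      rw [Finset.sum_div]
      refine Finset.sum_congr rfl fun α hα => ?_
      rw [Finset.sum_div]
      refine Finset.sum_congr rfl fun β hβ => ?_
      have hα' : α ≤ n := Nat.lt_succ_iff.mp (Finset.mem_range.mp hα)
      have hβ' : β ≤ n := Nat.lt_succ_iff.mp (Finset.mem_range.mp hβ)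
      have h3 : ClS n α β f (rep x).1 ⊆
          ((hVfin α β hα' hβ').toFinset : Set (Fin 10 → F[X])) := by
        intro c hc
        rw [Set.Finite.coe_toFinset]
        exact hc.1
      rw [finsum_mem_eq_sum_ite _ _ h3, finsum_mem_eq_sum_ite _ _ h3, div_right_comm]
      congr 1
      rw [Finset.sum_div]
      refine Finset.sum_congr rfl fun c _ => ?_
      split_ifs with hc
      · rw [key α β hα' hβ' c hc.1, hWt]
      · rw [zero_div]
    have w3 : ∑ α ∈ Finset.range (A + 1), ∑ β ∈ Finset.range (A + 1),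
        (∑ᶠ c ∈ ClS n α β f (rep x).1, WB3 n α β S N c) /
          ((G3 (Pool.AV3.dv α β) : Set (Matrix (Fin 3) (Fin 3) F[X])).ncard : ℝ) ≤
        ∑ α ∈ Finset.range (n + 1), ∑ β ∈ Finset.range (n + 1),
        (∑ᶠ c ∈ ClS n α β f (rep x).1, WB3 n α β S N c) /
          ((G3 (Pool.AV3.dv α β) : Set (Matrix (Fin 3) (Fin 3) F[X])).ncard : ℝ) := by
      have hr : Finset.range (A + 1) ⊆ Finset.range (n + 1) :=
        Finset.range_subset_range.mpr (by omega)
      refine le_trans (Finset.sum_le_sum fun α _ =>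
        Finset.sum_le_sum_of_subset_of_nonneg hr fun β _ _ => hCl0 α β x) ?_
      exact Finset.sum_le_sum_of_subset_of_nonneg hr fun α _ _ =>
        Finset.sum_nonneg fun β _ => hCl0 α β x
    have hq1 : 0 ≤ (Nat.card F : ℝ) - 1 := by
      have : (1 : ℝ) < Nat.card F := by exact_mod_cast hq
      linarith
    refine le_trans (mul_le_mul_of_nonneg_left w3 hq1) ?_
    rw [w2, ← mul_div_assoc, div_le_one hBpos]
    exact w1
  have hq1 : 0 ≤ (Nat.card F : ℝ) - 1 := by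
    have : (1 : ℝ) < Nat.card F := by exact_mod_cast hq
    linarith
  have step3 : ((Nat.card F : ℝ) - 1) *
      ∑ α ∈ Finset.range (A + 1), ∑ β ∈ Finset.range (A + 1),
        (∑ᶠ c ∈ {c | c ∈ VJ n (Pool.AV3.dv α β) f ∧ ¬ Tri f c}, WB3 n α β S N c) /
          ((G3 (Pool.AV3.dv α β) : Set (Matrix (Fin 3) (Fin 3) F[X])).ncard : ℝ) ≤
      ∑ x ∈ Finset.univ.erase t0, (((Nat.card F : ℝ) - 1) *
      ∑ α ∈ Finset.range (A + 1), ∑ β ∈ Finset.range (A + 1),
        (∑ᶠ c ∈ ClS n α β f (rep x).1, WB3 n α β S N c) /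
          ((G3 (Pool.AV3.dv α β) : Set (Matrix (Fin 3) (Fin 3) F[X])).ncard : ℝ)) := by
    have e : ∑ x ∈ Finset.univ.erase t0, (((Nat.card F : ℝ) - 1) *
        ∑ α ∈ Finset.range (A + 1), ∑ β ∈ Finset.range (A + 1),
        (∑ᶠ c ∈ ClS n α β f (rep x).1, WB3 n α β S N c) /
          ((G3 (Pool.AV3.dv α β) : Set (Matrix (Fin 3) (Fin 3) F[X])).ncard : ℝ)) =
        ((Nat.card F : ℝ) - 1) *
        ∑ α ∈ Finset.range (A + 1), ∑ β ∈ Finset.range (A + 1), ∑ x ∈ Finset.univ.erase t0,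
        (∑ᶠ c ∈ ClS n α β f (rep x).1, WB3 n α β S N c) /
          ((G3 (Pool.AV3.dv α β) : Set (Matrix (Fin 3) (Fin 3) F[X])).ncard : ℝ) := by
      rw [← Finset.mul_sum, Finset.sum_comm]
      congr 1
      exact Finset.sum_congr rfl fun α _ => Finset.sum_comm
    rw [e]
    refine mul_le_mul_of_nonneg_left ?_ hq1
    refine Finset.sum_le_sum fun α hα => Finset.sum_le_sum fun β hβ => ?_
    have hα' : α ≤ n := by
      have := Finset.mem_range.mp hα
      omega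
    have hβ' : β ≤ n := by
      have := Finset.mem_range.mp hβ
      omega
    rw [← Finset.sum_div]
    exact div_le_div_of_nonneg_right (step1 α β hα' hβ') (Nat.cast_nonneg _)
  refine le_trans step3 (le_trans (Finset.sum_le_sum fun x _ => step2 x) ?_)
  rw [Finset.sum_const, nsmul_eq_mul, mul_one, Finset.card_erase_of_mem (Finset.mem_univ t0),
    Finset.card_univ, Nat.card_eq_fintype_card]
  have hpos : 1 ≤ Fintype.card (Sel3 f) := Fintype.card_pos_iff.mpr ⟨t0⟩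
  rw [Nat.cast_sub hpos]
  simp

end Pool.Agent.H92.AV3C
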